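import Pool.Agent.H18Bill.Core

set_option autoImplicit false
open scoped InnerProductSpace

namespace Pool.Agent.H18Bill

/-- `v` is a unit outer normal of `K` at the point `p` of `K`. -/
def IsN (K : Set E2) (p v : E2) : Prop := p ∈ K ∧ ‖v‖ = 1 ∧ ∀ x ∈ K, ⟪v, x - p⟫_ℝ ≤ 0

/-- The properties of the rounded fat disk-polygon which are used. -/
structure Good (K : Set E2) : Prop where
  compact : IsCompact K
  ne : K.Nonempty
  ball : ∀ p v, IsN K p v → ∀ y ∈ K, ‖y - p‖ ^ 2 ≤ -2 * ⟪v, y - p⟫_ℝ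
  uniq : ∀ p v v', IsN K p v → IsN K p v' → v = v'
  inrad : ∃ O : E2, ∀ p v, IsN K p v → 1 - √3 / 3 ≤ ⟪v, p - O⟫_ℝ

lemma coord_of_norm_one {v : E2} (h : ‖v‖ = 1) : v 0 ^ 2 + v 1 ^ 2 = 1 := by
  rw [← normsq_coord, h]; norm_num

/-- product of complex numbers `v1 * v2 * conj v3`, rotated by minus ninety degrees. -/
def U (v1 v2 v3 : E2) : E2 :=
  mk (v3 0 * (v1 0 * v2 1 + v1 1 * v2 0) - v3 1 * (v1 0 * v2 0 - v1 1 * v2 1))
    (-(v3 0 * (v1 0 * v2 0 - v1 1 * v2 1) + v3 1 * (v1 0 * v2 1 + v1 1 * v2 0)))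

lemma norm_U {v1 v2 v3 : E2} (h1 : ‖v1‖ = 1) (h2 : ‖v2‖ = 1) (h3 : ‖v3‖ = 1) :
    ‖U v1 v2 v3‖ = 1 := by
  have e : ‖U v1 v2 v3‖ ^ 2 = 1 ^ 2 := by
    rw [normsq_coord]
    simp only [U, mk_0, mk_1]
    have k1 := coord_of_norm_one h1
    have k2 := coord_of_norm_one h2
    have k3 := coord_of_norm_one h3
    have : (v3 0 * (v1 0 * v2 1 + v1 1 * v2 0) - v3 1 * (v1 0 * v2 0 - v1 1 * v2 1)) ^ 2 +
      (-(v3 0 * (v1 0 * v2 0 - v1 1 * v2 1) + v3 1 * (v1 0 * v2 1 + v1 1 * v2 0))) ^ 2 =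
      (v1 0 ^ 2 + v1 1 ^ 2) * (v2 0 ^ 2 + v2 1 ^ 2) * (v3 0 ^ 2 + v3 1 ^ 2) := by ring
    rw [this, k1, k2, k3]; norm_num
  exact (pow_left_inj₀ (norm_nonneg _) zero_le_one two_ne_zero).1 e

lemma inner_le_dist {p q u : E2} (h : ‖u‖ = 1) : ⟪p - q, u⟫_ℝ ≤ dist p q := by
  have := real_inner_le_norm (p - q) u
  rw [h, mul_one] at this
  rwa [dist_eq_norm]

lemma acute_case {K : Set E2} (G : Good K) {m : ℝ} (hm0 : 0 ≤ m)
    (hm : ∀ p v p' v', IsN K p v → IsN K p' v' → ‖(p - v) - (p' - v')‖ ≤ m)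
    {p1 p2 p3 v1 v2 v3 : E2} (h1 : IsN K p1 v1) (h2 : IsN K p2 v2) (h3 : IsN K p3 v3)
    (d12 : 0 < det v1 v2) (d23 : 0 < det v2 v3) (d31 : 0 < det v3 v1)
    (i12 : ⟪v1, v2⟫_ℝ < 0) (i23 : ⟪v2, v3⟫_ℝ < 0) (i31 : ⟪v3, v1⟫_ℝ < 0) :
    2 * (2 - m) < dist p1 p2 + dist p2 p3 + dist p3 p1 := by
  by_contra hcon
  push Not at hcon
  obtain ⟨O, hO⟩ := G.inrad
  have n1 := h1.2.1
  have n2 := h2.2.1
  have n3 := h3.2.1
  have k1 := coord_of_norm_one n1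
  have k2 := coord_of_norm_one n2
  have k3 := coord_of_norm_one n3
  obtain ⟨t, ht⟩ : ∃ t : ℝ, t = √3 := ⟨_, rfl⟩
  have ht2 : t ^ 2 = 3 := by rw [ht]; exact Real.sq_sqrt (by norm_num)
  have ht0 : 0 < t := by rw [ht]; positivity
  rw [← ht] at hO
  obtain ⟨a, ha⟩ : ∃ a, a = det v2 v3 := ⟨_, rfl⟩
  obtain ⟨b, hb⟩ : ∃ b, b = det v3 v1 := ⟨_, rfl⟩
  obtain ⟨c, hc⟩ : ∃ c, c = det v1 v2 := ⟨_, rfl⟩
  obtain ⟨X, hX⟩ : ∃ X, X = -⟪v2, v3⟫_ℝ := ⟨_, rfl⟩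
  obtain ⟨Y, hY⟩ : ∃ Y, Y = -⟪v3, v1⟫_ℝ := ⟨_, rfl⟩
  obtain ⟨Z, hZ⟩ : ∃ Z, Z = -⟪v1, v2⟫_ℝ := ⟨_, rfl⟩
  rw [inner_coord] at hX hY hZ
  simp only [det] at ha hb hc
  have tri := tri_alg t a b c X Y Z ht2 ht0 (by rw [ha]; exact d23) (by rw [hb]; exact d31)
    (by rw [hc]; exact d12) (by rw [hX, ← inner_coord]; linarith)
    (by rw [hY, ← inner_coord]; linarith) (by rw [hZ, ← inner_coord]; linarith)
    (by rw [ha, hb, hX, hY, hZ]
        linear_combination (-(v1 0 * v2 0 + v1 1 * v2 1)) * k3)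
    (by rw [ha, hc, hX, hY, hZ]
        linear_combination (-(v3 0 * v1 0 + v3 1 * v1 1)) * k2)
    (by rw [hb, hc, hX, hY, hZ]
        linear_combination (-(v2 0 * v3 0 + v2 1 * v3 1)) * k1)
    (by rw [ha, hb, hc, hY, hZ]
        linear_combination (v2 0 * v3 1 - v2 1 * v3 0) * k1)
    (by rw [ha, hb, hc, hX, hZ]
        linear_combination (v3 0 * v1 1 - v3 1 * v1 0) * k2)
    (by rw [ha, hb, hc, hX, hY]
        linear_combination (v1 0 * v2 1 - v1 1 * v2 0) * k3)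
    (by rw [ha, hX]
        linear_combination (v2 0 ^ 2 + v2 1 ^ 2) * k3 + k2)
    (by rw [hb, hY]
        linear_combination (v3 0 ^ 2 + v3 1 ^ 2) * k1 + k3)
    (by rw [hc, hZ]
        linear_combination (v1 0 ^ 2 + v1 1 ^ 2) * k2 + k1)
  obtain ⟨hP2, hP3, hF2le, hac, hbc, hcc⟩ := tri
  have ha0 : 0 < a := by rw [ha]; exact d23
  have hb0 : 0 < b := by rw [hb]; exact d31
  have hc0 : 0 < c := by rw [hc]; exact d12
  have habc : 0 < a * b * c := by positivity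
  -- the Fermat length
  obtain ⟨F, hF⟩ : ∃ F, F = √((a ^ 2 + b ^ 2 + c ^ 2) / 2 + t * (a * b * c)) := ⟨_, rfl⟩
  have hFpos : 0 < F := by rw [hF]; positivity
  have hF2 : F ^ 2 = (a ^ 2 + b ^ 2 + c ^ 2) / 2 + t * (a * b * c) := by
    rw [hF]; exact Real.sq_sqrt (by positivity)
  have htabc : 0 < t * (a * b * c) := by positivity
  have nf1 : ‖a • v1‖ ^ 2 = a ^ 2 := by rw [norm_smul, n1, mul_one, Real.norm_eq_abs, sq_abs]
  have nf2 : ‖b • v2‖ ^ 2 = b ^ 2 := by rw [norm_smul, n2, mul_one, Real.norm_eq_abs, sq_abs]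
  have nf3 : ‖c • v3‖ ^ 2 = c ^ 2 := by rw [norm_smul, n3, mul_one, Real.norm_eq_abs, sq_abs]
  have hsum : a • v1 + b • v2 + c • v3 = 0 := by
    ext i
    fin_cases i
    · simp only [PiLp.add_apply, PiLp.smul_apply, smul_eq_mul, ha, hb, hc, Fin.zero_eta,
        PiLp.zero_apply]
      ring
    · simp only [PiLp.add_apply, PiLp.smul_apply, smul_eq_mul, ha, hb, hc, Fin.mk_one,
        PiLp.zero_apply]
      ring
  have hdet : det (a • v1) (b • v2) = a * b * c := by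
    simp only [det, PiLp.smul_apply, smul_eq_mul]
    rw [hc]; ring
  have fb := fermat_bound t m F ht2 hFpos (a • v1) (b • v2) (c • v3) (p1 - v1) (p2 - v2) (p3 - v3)
    hsum (by rw [nf1, nf2, nf3, hdet, hF2]) (by rw [nf1, nf2, nf3, hF2]; linarith)
    (by rw [nf1, nf2, nf3, hF2]; linarith) (by rw [nf1, nf2, nf3, hF2]; linarith)
    (hm _ _ _ _ h2 h3) (hm _ _ _ _ h3 h1) (hm _ _ _ _ h1 h2)
  obtain ⟨H, hH⟩ : ∃ H, H = a * ⟪v1, p1 - O⟫_ℝ + b * ⟪v2, p2 - O⟫_ℝ + c * ⟪v3, p3 - O⟫_ℝ :=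
    ⟨_, rfl⟩
  have H1 : (1 - t / 3) * (a + b + c) ≤ H := by
    rw [hH]
    have e1 := mul_le_mul_of_nonneg_left (hO _ _ h1) ha0.le
    have e2 := mul_le_mul_of_nonneg_left (hO _ _ h2) hb0.le
    have e3 := mul_le_mul_of_nonneg_left (hO _ _ h3) hc0.le
    linarith
  have H2 : (a + b + c) - m * F ≤ H := by
    have : H = (a + b + c) + (⟪p1 - v1, a • v1⟫_ℝ + ⟪p2 - v2, b • v2⟫_ℝ + ⟪p3 - v3, c • v3⟫_ℝ) := by
      rw [hH]
      simp only [inner_coord, PiLp.sub_apply, PiLp.smul_apply, smul_eq_mul]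
      have z0 : a * v1 0 + b * v2 0 + c * v3 0 = 0 := by rw [ha, hb, hc]; ring
      have z1 : a * v1 1 + b * v2 1 + c * v3 1 = 0 := by rw [ha, hb, hc]; ring
      linear_combination a * k1 + b * k2 + c * k3 - O 0 * z0 - O 1 * z1
    rw [this]; linarith
  have H3 : H ≤ 2 - m := by
    have u1 := norm_U n2 n3 n1
    have u2 := norm_U n3 n1 n2
    have u3 := norm_U n1 n2 n3
    have w1 := inner_le_dist (p := p3) (q := p2) u1
    have w2 := inner_le_dist (p := p1) (q := p3) u2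
    have w3 := inner_le_dist (p := p2) (q := p1) u3
    have : 2 * H = ⟪p3 - p2, U v2 v3 v1⟫_ℝ + ⟪p1 - p3, U v3 v1 v2⟫_ℝ + ⟪p2 - p1, U v1 v2 v3⟫_ℝ := by
      rw [hH]
      simp only [inner_coord, PiLp.sub_apply, U, mk_0, mk_1, ha, hb, hc]
      ring
    rw [dist_comm] at w1 w2 w3
    linarith
  exact numeric_core t (a + b + c) F m H ht2 ht0 hP2 hP3 hm0 (by rw [hF2]; exact hF2le) H1 H2 H3

end Pool.Agent.H18Bill
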