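import Mathlib

set_option autoImplicit false
open scoped InnerProductSpace

namespace Pool.Agent.H18Bill

abbrev E2 := EuclideanSpace ℝ (Fin 2)

lemma inner_coord (u v : E2) : ⟪u, v⟫_ℝ = u 0 * v 0 + u 1 * v 1 := by
  simp [PiLp.inner_apply, Fin.sum_univ_two, mul_comm]

lemma normsq_coord (u : E2) : ‖u‖ ^ 2 = u 0 ^ 2 + u 1 ^ 2 := by
  rw [EuclideanSpace.real_norm_sq_eq]
  simp [Fin.sum_univ_two]

def mk (a b : ℝ) : E2 := !₂[a, b]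

@[simp] lemma mk_0 (a b : ℝ) : mk a b 0 = a := by simp [mk]
@[simp] lemma mk_1 (a b : ℝ) : mk a b 1 = b := by simp [mk]

def det (u v : E2) : ℝ := u 0 * v 1 - u 1 * v 0

lemma inner_ge_of_norm_le {u N : E2} {m F : ℝ} (hu : ‖u‖ ≤ m) (hN : ‖N‖ = F) :
    -(m * F) ≤ ⟪u, N⟫_ℝ := by
  have h1 : |⟪u, N⟫_ℝ| ≤ ‖u‖ * ‖N‖ := abs_real_inner_le_norm u N
  have h2 : ‖u‖ * ‖N‖ ≤ m * F := by
    rw [hN]
    exact mul_le_mul_of_nonneg_right hu (by rw [← hN]; exact norm_nonneg _)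
  have := neg_abs_le ⟪u, N⟫_ℝ
  linarith

/-- Fermat-type bound. -/
lemma fermat_bound (t m F : ℝ) (ht : t ^ 2 = 3) (hF : 0 < F)
    (f1 f2 f3 c1 c2 c3 : E2) (hf : f1 + f2 + f3 = 0)
    (hF2 : F ^ 2 = (‖f1‖ ^ 2 + ‖f2‖ ^ 2 + ‖f3‖ ^ 2) / 2 + t * det f1 f2)
    (h1 : 0 ≤ F ^ 2 + ‖f2‖ ^ 2 + ‖f3‖ ^ 2 - 2 * ‖f1‖ ^ 2)
    (h2 : 0 ≤ F ^ 2 + ‖f3‖ ^ 2 + ‖f1‖ ^ 2 - 2 * ‖f2‖ ^ 2)
    (h3 : 0 ≤ F ^ 2 + ‖f1‖ ^ 2 + ‖f2‖ ^ 2 - 2 * ‖f3‖ ^ 2)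
    (hc23 : ‖c2 - c3‖ ≤ m) (hc31 : ‖c3 - c1‖ ≤ m) (hc12 : ‖c1 - c2‖ ≤ m) :
    -(m * F) ≤ ⟪c1, f1⟫_ℝ + ⟪c2, f2⟫_ℝ + ⟪c3, f3⟫_ℝ := by
  obtain rfl : f1 = -(f2 + f3) := by
    rw [eq_neg_iff_add_eq_zero, ← add_assoc]; exact hf
  have ht3 : t ^ 3 = 3 * t := by rw [pow_succ, ht]
  have ht4 : t ^ 4 = 9 := by
    have : t ^ 4 = (t ^ 2) ^ 2 := by ring
    rw [this, ht]; norm_num
  simp only [normsq_coord, det, PiLp.neg_apply, PiLp.add_apply] at hF2 h1 h2 h3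
  set p := f2 0 with hp
  set q := f2 1 with hq
  set r := f3 0 with hr
  set s := f3 1 with hs
  let ax : ℝ := (-r/2 + t*s/2) - (-p/2 - t*q/2)
  let ay : ℝ := (-t*r/2 - s/2) - (t*p/2 - q/2)
  let N1 : E2 := mk ax ay
  let N2 : E2 := mk (-ax/2 - t*ay/2) (t*ax/2 - ay/2)
  let N3 : E2 := mk (-ax/2 + t*ay/2) (-t*ax/2 - ay/2)
  have hN1 : ‖N1‖ ^ 2 = F ^ 2 := by
    rw [normsq_coord, hF2]
    simp only [N1, mk_0, mk_1, ax, ay]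
    ring_nf
    simp only [ht]
    ring
  have hN2 : ‖N2‖ ^ 2 = F ^ 2 := by
    rw [← hN1, normsq_coord, normsq_coord]
    simp only [N1, N2, mk_0, mk_1]
    linear_combination (ax^2/4+ay^2/4) * ht
  have hN3 : ‖N3‖ ^ 2 = F ^ 2 := by
    rw [← hN1, normsq_coord, normsq_coord]
    simp only [N1, N3, mk_0, mk_1]
    linear_combination (ax^2/4+ay^2/4) * ht
  have e1 : ‖N1‖ = F := by
    exact (pow_left_inj₀ (norm_nonneg _) hF.le two_ne_zero).1 hN1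
  have e2 : ‖N2‖ = F := by
    exact (pow_left_inj₀ (norm_nonneg _) hF.le two_ne_zero).1 hN2
  have e3 : ‖N3‖ = F := by
    exact (pow_left_inj₀ (norm_nonneg _) hF.le two_ne_zero).1 hN3
  have g1 := inner_ge_of_norm_le hc23 e1
  have g2 := inner_ge_of_norm_le hc31 e2
  have g3 := inner_ge_of_norm_le hc12 e3
  have k1 := mul_le_mul_of_nonneg_left g1 h1
  have k2 := mul_le_mul_of_nonneg_left g2 h2
  have k3 := mul_le_mul_of_nonneg_left g3 h3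
  have hF2pos : 0 < 3 * F ^ 2 := by positivity
  refine le_of_mul_le_mul_left ?_ hF2pos
  have key : 3 * F ^ 2 * (⟪c1, -(f2+f3)⟫_ℝ + ⟪c2, f2⟫_ℝ + ⟪c3, f3⟫_ℝ) =
      (F ^ 2 + (p ^ 2 + q ^ 2) + (r ^ 2 + s ^ 2) - 2 * ((-(p + r)) ^ 2 + (-(q + s)) ^ 2)) * ⟪c2 - c3, N1⟫_ℝ
      + (F ^ 2 + (r ^ 2 + s ^ 2) + ((-(p + r)) ^ 2 + (-(q + s)) ^ 2) - 2 * (p ^ 2 + q ^ 2)) * ⟪c3 - c1, N2⟫_ℝ
      + (F ^ 2 + ((-(p + r)) ^ 2 + (-(q + s)) ^ 2) + (p ^ 2 + q ^ 2) - 2 * (r ^ 2 + s ^ 2)) * ⟪c1 - c2, N3⟫_ℝ := by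
    simp only [inner_coord, N1, N2, N3, mk_0, mk_1, PiLp.neg_apply, PiLp.add_apply, PiLp.sub_apply,
      ← hp, ← hq, ← hr, ← hs, hF2, ax, ay]
    ring_nf
    simp only [ht, ht3, ht4]
    ring
  rw [key]
  linarith [k1, k2, k3]

end Pool.Agent.H18Bill
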