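import Pool.Agent.H18Bill.Basic

set_option autoImplicit false
open scoped InnerProductSpace

namespace Pool.Agent.H18Bill

/-- numeric heart of Jung's theorem for three points -/
lemma jung_num {t Q A B L : ℝ} (ht : t ^ 2 = 3) (ht0 : 0 < t) (hA : 0 ≤ A) (hB : 0 ≤ B)
    (hAB : A ^ 2 + B ^ 2 = Q * L) (h : Q + A ≤ 3 * L / 4) :
    Q - t / 3 * B ≤ L / 4 := by
  by_cases hc : L / 2 ≤ A + t / 3 * B
  · linarith
  · push Not at hc
    have htB : 0 ≤ t / 3 * B := by positivity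
    have hL : 0 < L := by linarith
    have h1 : A ^ 2 ≤ (L / 2 - t / 3 * B) ^ 2 := pow_le_pow_left₀ hA (by linarith) 2
    have h2 : B ≤ t / 2 * L := by
      have : t * (t / 3 * B) ≤ t * (L / 2) := mul_le_mul_of_nonneg_left (by linarith) ht0.le
      have e : t * (t / 3 * B) = B := by
        have : t * (t / 3 * B) = t ^ 2 / 3 * B := by ring
        rw [this, ht]; ring
      linarith
    have h3 : 0 ≤ B * (t / 2 * L - B) := mul_nonneg hB (by linarith)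
    have h4 : (L / 2 - t / 3 * B) ^ 2 = L ^ 2 / 4 - t / 3 * B * L + B ^ 2 / 3 := by
      linear_combination (B ^ 2 / 9) * ht
    have h5 : (Q - t / 3 * B) * L ≤ L / 4 * L := by nlinarith
    exact le_of_mul_le_mul_right h5 hL

lemma jung3_aux (a b c : E2) (h1 : ‖b - c‖ ≤ ‖b - a‖) (h2 : ‖a - c‖ ≤ ‖b - a‖) :
    ∃ O : E2, 3 * ‖a - O‖ ^ 2 ≤ ‖b - a‖ ^ 2 ∧ 3 * ‖b - O‖ ^ 2 ≤ ‖b - a‖ ^ 2 ∧
      3 * ‖c - O‖ ^ 2 ≤ ‖b - a‖ ^ 2 := by
  obtain ⟨t, ht⟩ : ∃ t : ℝ, t = √3 := ⟨_, rfl⟩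
  have ht2 : t ^ 2 = 3 := by rw [ht]; exact Real.sq_sqrt (by norm_num)
  have ht0 : 0 < t := by rw [ht]; positivity
  obtain ⟨α, hα⟩ : ∃ α, α = (c 0 - (a 0 + b 0) / 2) * (b 0 - a 0) +
    (c 1 - (a 1 + b 1) / 2) * (b 1 - a 1) := ⟨_, rfl⟩
  obtain ⟨β, hβ⟩ : ∃ β, β = -(c 0 - (a 0 + b 0) / 2) * (b 1 - a 1) +
    (c 1 - (a 1 + b 1) / 2) * (b 0 - a 0) := ⟨_, rfl⟩
  obtain ⟨Q, hQ⟩ : ∃ Q, Q = (c 0 - (a 0 + b 0) / 2) ^ 2 + (c 1 - (a 1 + b 1) / 2) ^ 2 := ⟨_, rfl⟩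
  obtain ⟨L, hL⟩ : ∃ L, L = (b 0 - a 0) ^ 2 + (b 1 - a 1) ^ 2 := ⟨_, rfl⟩
  have hnL : ‖b - a‖ ^ 2 = L := by rw [normsq_coord, hL]; simp
  have e1 : α ^ 2 + β ^ 2 = Q * L := by rw [hα, hβ, hQ, hL]; ring
  have k1 : ‖b - c‖ ^ 2 ≤ L := by rw [← hnL]; exact pow_le_pow_left₀ (norm_nonneg _) h1 2
  have k2 : ‖a - c‖ ^ 2 ≤ L := by rw [← hnL]; exact pow_le_pow_left₀ (norm_nonneg _) h2 2
  have k3 : Q - α + L / 4 ≤ L := by
    have : ‖b - c‖ ^ 2 = Q - α + L / 4 := by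
      rw [normsq_coord, hQ, hα, hL]; simp only [PiLp.sub_apply]; ring
    linarith
  have k4 : Q + α + L / 4 ≤ L := by
    have : ‖a - c‖ ^ 2 = Q + α + L / 4 := by
      rw [normsq_coord, hQ, hα, hL]; simp only [PiLp.sub_apply]; ring
    linarith
  have k5 : Q + |α| ≤ 3 * L / 4 := by
    rcases abs_cases α with h | h <;> linarith [h.1]
  have k6 := jung_num ht2 ht0 (abs_nonneg α) (abs_nonneg β) (by rw [sq_abs, sq_abs]; exact e1) k5
  obtain ⟨σ, hσ, hσβ⟩ : ∃ σ : ℝ, σ ^ 2 = 1 ∧ σ * β = |β| := by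
    rcases le_total 0 β with h | h
    · exact ⟨1, by norm_num, by rw [abs_of_nonneg h, one_mul]⟩
    · exact ⟨-1, by norm_num, by rw [abs_of_nonpos h]; ring⟩
  refine ⟨mk ((a 0 + b 0) / 2 - σ * t / 6 * (b 1 - a 1)) ((a 1 + b 1) / 2 + σ * t / 6 * (b 0 - a 0)),
    ?_, ?_, ?_⟩
  · rw [hnL, hL, normsq_coord]
    simp only [PiLp.sub_apply, mk_0, mk_1]
    apply le_of_eq
    linear_combination (((b 0 - a 0) ^ 2 + (b 1 - a 1) ^ 2) / 12) * (ht2 * σ ^ 2 + 3 * hσ)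
  · rw [hnL, hL, normsq_coord]
    simp only [PiLp.sub_apply, mk_0, mk_1]
    apply le_of_eq
    linear_combination (((b 0 - a 0) ^ 2 + (b 1 - a 1) ^ 2) / 12) * (ht2 * σ ^ 2 + 3 * hσ)
  · have e2 : ‖c - mk ((a 0 + b 0) / 2 - σ * t / 6 * (b 1 - a 1))
        ((a 1 + b 1) / 2 + σ * t / 6 * (b 0 - a 0))‖ ^ 2 = Q - t / 3 * (σ * β) + L / 12 := by
      rw [normsq_coord, hQ, hβ, hL]
      simp only [PiLp.sub_apply, mk_0, mk_1]
      linear_combination (((b 0 - a 0) ^ 2 + (b 1 - a 1) ^ 2) / 36) * (ht2 * σ ^ 2 + 3 * hσ)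
    rw [e2, hσβ, hnL]
    linarith

lemma jung3 (a b c : E2) (hab : ‖b - a‖ ≤ 1) (hbc : ‖b - c‖ ≤ 1) (hca : ‖a - c‖ ≤ 1) :
    ∃ O : E2, 3 * ‖a - O‖ ^ 2 ≤ 1 ∧ 3 * ‖b - O‖ ^ 2 ≤ 1 ∧ 3 * ‖c - O‖ ^ 2 ≤ 1 := by
  have sq1 : ∀ x : E2, ‖x‖ ≤ 1 → ‖x‖ ^ 2 ≤ 1 := fun x hx => pow_le_one₀ (norm_nonneg _) hx
  by_cases h1 : ‖b - c‖ ≤ ‖b - a‖ ∧ ‖a - c‖ ≤ ‖b - a‖
  · obtain ⟨O, o1, o2, o3⟩ := jung3_aux a b c h1.1 h1.2
    have := sq1 _ hab
    exact ⟨O, by linarith, by linarith, by linarith⟩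
  by_cases h2 : ‖c - a‖ ≤ ‖c - b‖ ∧ ‖b - a‖ ≤ ‖c - b‖
  · obtain ⟨O, o1, o2, o3⟩ := jung3_aux b c a h2.1 h2.2
    have := sq1 _ (by rw [norm_sub_rev]; exact hbc : ‖c - b‖ ≤ 1)
    exact ⟨O, by linarith, by linarith, by linarith⟩
  · have h3 : ‖c - b‖ ≤ ‖c - a‖ ∧ ‖a - b‖ ≤ ‖c - a‖ := by
      rw [norm_sub_rev c b, norm_sub_rev c a] at *
      rw [norm_sub_rev a b]
      by_contra hcon
      rw [not_and_or] at h1 h2 hcon
      push Not at h1 h2 hcon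
      rcases h1 with h1 | h1 <;> rcases h2 with h2 | h2 <;> rcases hcon with h3 | h3 <;> linarith
    obtain ⟨O, o1, o2, o3⟩ := jung3_aux a c b h3.1 h3.2
    have := sq1 _ (by rw [norm_sub_rev]; exact hca : ‖c - a‖ ≤ 1)
    exact ⟨O, by linarith, by linarith, by linarith⟩

lemma norm_le_of_three_sq {x : E2} (h : 3 * ‖x‖ ^ 2 ≤ 1) : ‖x‖ ≤ √3 / 3 := by
  have h3 : (√3 / 3 : ℝ) ^ 2 = 1 / 3 := by
    rw [div_pow, Real.sq_sqrt (by norm_num)]; norm_num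
  have : ‖x‖ ^ 2 ≤ (√3 / 3) ^ 2 := by rw [h3]; linarith
  exact (pow_le_pow_iff_left₀ (norm_nonneg _) (by positivity) two_ne_zero).1 this

/-- Jung's theorem in the plane for finite sets of diameter at most one. -/
theorem jung (C : Finset E2) (hC : ∀ c ∈ C, ∀ c' ∈ C, dist c c' ≤ 1) :
    ∃ O : E2, ∀ c ∈ C, dist O c ≤ √3 / 3 := by
  classical
  have key : (⋂ c ∈ C, Metric.closedBall c (√3 / 3)).Nonempty := by
    apply Convex.helly_theorem' (𝕜 := ℝ)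
    · intro c _
      exact convex_closedBall _ _
    · intro I hI hcard
      have hfin : Module.finrank ℝ E2 = 2 := by simp
      rw [hfin] at hcard
      have gen : ∀ a ∈ C, ∀ b ∈ C, ∀ c ∈ C, I ⊆ {a, b, c} →
          (⋂ i ∈ I, Metric.closedBall i (√3 / 3)).Nonempty := by
        intro a ha b hb c hc hsub
        have d1 := hC _ hb _ ha
        have d2 := hC _ hb _ hc
        have d3 := hC _ ha _ hc
        rw [dist_eq_norm] at d1 d2 d3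
        obtain ⟨O, o1, o2, o3⟩ := jung3 a b c d1 d2 d3
        refine ⟨O, ?_⟩
        simp only [Set.mem_iInter, Metric.mem_closedBall]
        intro i hi
        rw [dist_comm, dist_eq_norm]
        apply norm_le_of_three_sq
        have := hsub hi
        simp only [Finset.mem_insert, Finset.mem_singleton] at this
        rcases this with rfl | rfl | rfl <;> assumption
      rcases I.eq_empty_or_nonempty with rfl | ⟨x, hx⟩
      · simp
      · interval_cases hI2 : I.card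
        · exact absurd (Finset.card_eq_zero.1 hI2) (Finset.ne_empty_of_mem hx)
        · obtain ⟨a, rfl⟩ := Finset.card_eq_one.1 hI2
          have ha : a ∈ C := hI (by simp)
          exact gen a ha a ha a ha (by simp)
        · obtain ⟨a, b, _, rfl⟩ := Finset.card_eq_two.1 hI2
          have ha : a ∈ C := hI (by simp)
          have hb : b ∈ C := hI (by simp)
          exact gen a ha b hb b hb (by simp)
        · obtain ⟨a, b, c, _, _, _, rfl⟩ := Finset.card_eq_three.1 hI2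
          have ha : a ∈ C := hI (by simp)
          have hb : b ∈ C := hI (by simp)
          have hc : c ∈ C := hI (by simp)
          exact gen a ha b hb c hc (by simp)
  obtain ⟨O, hO⟩ := key
  simp only [Set.mem_iInter, Metric.mem_closedBall] at hO
  exact ⟨O, hO⟩

end Pool.Agent.H18Bill
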