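import Pool.Agent.H18Bill.Acute
import Pool.Agent.H18Bill.Jung

set_option autoImplicit false
open scoped InnerProductSpace

namespace Pool.Agent.H18Bill

lemma exists_unit_dir (x : E2) : ∃ u : E2, ‖u‖ = 1 ∧ x = ‖x‖ • u := by
  by_cases h : x = 0
  · refine ⟨mk 1 0, ?_, by simp [h]⟩
    have : ‖mk 1 0‖ ^ 2 = 1 ^ 2 := by rw [normsq_coord]; simp
    exact (pow_left_inj₀ (norm_nonneg _) zero_le_one two_ne_zero).1 this
  · have hx : ‖x‖ ≠ 0 := norm_ne_zero_iff.2 h
    refine ⟨‖x‖⁻¹ • x, ?_, ?_⟩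
    · rw [norm_smul, norm_inv, norm_norm, inv_mul_cancel₀ hx]
    · rw [smul_smul, mul_inv_cancel₀ hx, one_smul]

lemma ball_sub_iff {x c : E2} {ε : ℝ} (hε : 0 < ε) :
    Metric.closedBall x ε ⊆ Metric.closedBall c 1 ↔ ‖x - c‖ ≤ 1 - ε := by
  constructor
  · intro h
    obtain ⟨u, hu, hxu⟩ := exists_unit_dir (x - c)
    have h1 : x + ε • u ∈ Metric.closedBall x ε := by
      rw [Metric.mem_closedBall, dist_eq_norm, add_sub_cancel_left, norm_smul, hu, mul_one,
        Real.norm_eq_abs, abs_of_pos hε]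
    have h2 := h h1
    rw [Metric.mem_closedBall, dist_eq_norm] at h2
    have h3 : x + ε • u - c = (‖x - c‖ + ε) • u := by
      rw [add_smul, ← hxu]; abel
    rw [h3, norm_smul, hu, mul_one, Real.norm_eq_abs, abs_of_nonneg (by positivity)] at h2
    linarith
  · intro h
    apply Metric.closedBall_subset_closedBall'
    rw [dist_eq_norm]; linarith

section
variable {C : Finset E2} {ε : ℝ}

/-- the set of centers -/
def ASet (C : Finset E2) (ε : ℝ) : Set E2 := {x | ∀ c ∈ C, ‖x - c‖ ≤ 1 - ε}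

def KSet (C : Finset E2) (ε : ℝ) : Set E2 := {y | ∃ x ∈ ASet C ε, ‖y - x‖ ≤ ε}

lemma isCompact_ASet (hC : C.Nonempty) : IsCompact (ASet C ε) := by
  obtain ⟨c, hc⟩ := hC
  refine (isCompact_closedBall c (1 - ε)).of_isClosed_subset ?_ ?_
  · have : ASet C ε = ⋂ c ∈ C, {x : E2 | ‖x - c‖ ≤ 1 - ε} := by
      ext x; simp [ASet]
    rw [this]
    exact isClosed_biInter fun c _ => isClosed_le (by fun_prop) continuous_const
  · intro x hx
    rw [Metric.mem_closedBall, dist_eq_norm]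
    exact hx c hc

lemma isCompact_KSet (hC : C.Nonempty) : IsCompact (KSet C ε) := by
  have h := ((isCompact_ASet (ε := ε) hC).prod (isCompact_closedBall (0 : E2) ε)).image
    (f := fun z : E2 × E2 => z.1 + z.2) (by fun_prop)
  convert h using 1
  ext y
  constructor
  · rintro ⟨x, hx, hy⟩
    exact ⟨(x, y - x), ⟨hx, by simpa using hy⟩, by simp⟩
  · rintro ⟨⟨x, z⟩, ⟨hx, hz⟩, rfl⟩
    refine ⟨x, hx, ?_⟩
    simpa using hz

lemma shift_mem {x u : E2} (hε : 0 < ε) (hx : x ∈ ASet C ε) (hu : ‖u‖ = 1) :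
    x + ε • u ∈ KSet C ε := by
  refine ⟨x, hx, ?_⟩
  rw [add_sub_cancel_left, norm_smul, hu, mul_one, Real.norm_eq_abs, abs_of_pos hε]

lemma normal_shift (hε : 0 < ε) {p v x : E2} (h : IsN (KSet C ε) p v) (hx : x ∈ ASet C ε)
    (hpx : ‖p - x‖ ≤ ε) : p = x + ε • v := by
  have h1 := h.2.2 _ (shift_mem hε hx h.2.1)
  have h2 : ⟪v, v⟫_ℝ = 1 := by rw [real_inner_self_eq_norm_sq, h.2.1]; norm_num
  have h3 : ε ≤ ⟪v, p - x⟫_ℝ := by
    have : ⟪v, x + ε • v - p⟫_ℝ = ε - ⟪v, p - x⟫_ℝ := by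
      simp only [inner_sub_right, inner_add_right, inner_smul_right, h2]; ring
    linarith
  have h4 : ‖(p - x) - ε • v‖ ^ 2 ≤ 0 := by
    rw [@norm_sub_sq_real, norm_smul, h.2.1, inner_smul_right, real_inner_comm, mul_one,
      Real.norm_eq_abs, sq_abs]
    have k1 : ‖p - x‖ ^ 2 ≤ ε ^ 2 := pow_le_pow_left₀ (norm_nonneg _) hpx 2
    have k2 : ε * ε ≤ ε * ⟪v, p - x⟫_ℝ := mul_le_mul_of_nonneg_left h3 hε.le
    nlinarith
  have h5 : ‖(p - x) - ε • v‖ ^ 2 = 0 := le_antisymm h4 (sq_nonneg _)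
  have h6 := sub_eq_zero.1 (norm_eq_zero.1 (pow_eq_zero_iff two_ne_zero |>.1 h5))
  rw [← h6]; abel

lemma strong_ball (hC : C.Nonempty) {x y v : E2} (hx : x ∈ ASet C ε) (hy : y ∈ ASet C ε)
    (hv : ‖v‖ = 1) (hmax : ∀ z ∈ ASet C ε, ⟪v, z - x⟫_ℝ ≤ 0) :
    ‖y - x‖ ^ 2 ≤ -2 * (1 - ε) * ⟪v, y - x⟫_ℝ := by
  obtain ⟨c0, hc0⟩ := hC
  have hr : 0 ≤ 1 - ε := (norm_nonneg _).trans (hx c0 hc0)
  rcases hr.eq_or_lt with hr0 | hr0
  · have e1 : ‖x - c0‖ ≤ 0 := by rw [hr0]; exact hx c0 hc0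
    have e2 : ‖y - c0‖ ≤ 0 := by rw [hr0]; exact hy c0 hc0
    have e3 : x = c0 := sub_eq_zero.1 (norm_le_zero_iff.1 e1)
    have e4 : y = c0 := sub_eq_zero.1 (norm_le_zero_iff.1 e2)
    rw [e3, e4]; simp
  · obtain ⟨r, hrdef⟩ : ∃ r, r = 1 - ε := ⟨_, rfl⟩
    rw [← hrdef] at hr0 ⊢
    obtain ⟨N, hN⟩ : ∃ N, N = ‖y - x‖ ^ 2 := ⟨_, rfl⟩
    have hN0 : 0 ≤ N := by rw [hN]; positivity
    rw [← hN]
    have step : ∀ t : ℝ, 0 < t → t < 1 → 2 * r * ⟪v, y - x⟫_ℝ + (1 - t) * N ≤ 0 := by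
      intro t ht0 ht1
      obtain ⟨κ, hκ⟩ : ∃ κ, κ = t * (1 - t) * N / (2 * r) := ⟨_, rfl⟩
      have hκ0 : 0 ≤ κ := by
        rw [hκ]
        have : 0 < 1 - t := by linarith
        positivity
      have hκ2 : 2 * r * κ = t * (1 - t) * N := by rw [hκ]; field_simp
      have hz : (1 - t) • x + t • y + κ • v ∈ ASet C ε := by
        intro c hc
        have b1 := hx c hc
        have b2 := hy c hc
        rw [← hrdef] at b1 b2 ⊢
        have c1 : ‖x - c‖ ^ 2 ≤ r ^ 2 := pow_le_pow_left₀ (norm_nonneg _) b1 2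
        have c2 : ‖y - c‖ ^ 2 ≤ r ^ 2 := pow_le_pow_left₀ (norm_nonneg _) b2 2
        have e1 : ‖(1 - t) • x + t • y - c‖ ^ 2 =
            (1 - t) * ‖x - c‖ ^ 2 + t * ‖y - c‖ ^ 2 - t * (1 - t) * N := by
          rw [hN]
          simp only [normsq_coord, PiLp.sub_apply, PiLp.add_apply, PiLp.smul_apply, smul_eq_mul]
          ring
        have e2 : ‖(1 - t) • x + t • y - c‖ ^ 2 ≤ r ^ 2 - 2 * r * κ := by
          rw [e1, hκ2]
          have d1 := mul_le_mul_of_nonneg_left c1 (by linarith : 0 ≤ 1 - t)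
          have d2 := mul_le_mul_of_nonneg_left c2 ht0.le
          linarith
        have e3 : κ ≤ r := by
          have : 0 ≤ r * (r - 2 * κ) := by
            have := sq_nonneg ‖(1 - t) • x + t • y - c‖
            linarith
          have := (mul_nonneg_iff_of_pos_left hr0).1 this
          linarith
        have e4 : ‖(1 - t) • x + t • y - c‖ ≤ r - κ := by
          have : ‖(1 - t) • x + t • y - c‖ ^ 2 ≤ (r - κ) ^ 2 := by
            have := sq_nonneg κ
            linarith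
          exact (pow_le_pow_iff_left₀ (norm_nonneg _) (by linarith) two_ne_zero).1 this
        have e5 : (1 - t) • x + t • y + κ • v - c = ((1 - t) • x + t • y - c) + κ • v := by abel
        rw [e5]
        have e6 := norm_add_le ((1 - t) • x + t • y - c) (κ • v)
        rw [norm_smul κ v, hv, mul_one, Real.norm_eq_abs, abs_of_nonneg hκ0] at e6
        linarith
      have h1 := hmax _ hz
      have h2 : ⟪v, (1 - t) • x + t • y + κ • v - x⟫_ℝ = t * ⟪v, y - x⟫_ℝ + κ := by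
        have hvv : ⟪v, v⟫_ℝ = 1 := by rw [real_inner_self_eq_norm_sq, hv]; norm_num
        simp only [inner_sub_right, inner_add_right, inner_smul_right, hvv]; ring
      rw [h2] at h1
      have h3 : 2 * r * (t * ⟪v, y - x⟫_ℝ + κ) ≤ 0 :=
        mul_nonpos_of_nonneg_of_nonpos (by positivity) h1
      have h4 : t * (2 * r * ⟪v, y - x⟫_ℝ + (1 - t) * N) ≤ 0 := by linarith
      by_contra hcon
      push Not at hcon
      have := mul_pos ht0 hcon
      linarith
    by_contra hcon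
    push Not at hcon
    obtain ⟨δ, hδ⟩ : ∃ δ, δ = 2 * r * ⟪v, y - x⟫_ℝ + N := ⟨_, rfl⟩
    have hδ0 : 0 < δ := by rw [hδ]; linarith
    have step2 : ∀ t : ℝ, 0 < t → t < 1 → δ ≤ t * N := by
      intro t h0 h1
      have := step t h0 h1
      rw [hδ]; linarith
    have s1 := step2 (1 / 2) (by norm_num) (by norm_num)
    have hNpos : 0 < N := by linarith
    have s2 := step2 (δ / (2 * N)) (by positivity) (by
      rw [div_lt_one (by positivity)]; linarith)
    have s3 : δ / (2 * N) * N = δ / 2 := by field_simp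
    rw [s3] at s2
    linarith

lemma good_KSet (hC : C.Nonempty) (hdiam : ∀ c ∈ C, ∀ c' ∈ C, dist c c' ≤ 1)
    (hε : 0 < ε) (hA : (ASet C ε).Nonempty) : Good (KSet C ε) := by
  refine ⟨isCompact_KSet hC, ?_, ?_, ?_, ?_⟩
  · obtain ⟨x, hx⟩ := hA
    exact ⟨x, x, hx, by simpa using hε.le⟩
  · intro p v h y hy
    obtain ⟨x, hx, hpx⟩ := h.1
    obtain ⟨z, hz, hyz⟩ := hy
    have hp := normal_shift hε h hx hpx
    have hmax : ∀ w ∈ ASet C ε, ⟪v, w - x⟫_ℝ ≤ 0 := by
      intro w hw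
      have := h.2.2 _ (shift_mem hε hw h.2.1)
      rw [hp] at this
      have e : w + ε • v - (x + ε • v) = w - x := by abel
      rwa [e] at this
    have h1 := strong_ball hC hx hz h.2.1 hmax
    have hr : 0 ≤ 1 - ε := by
      obtain ⟨c0, hc0⟩ := hC
      exact (norm_nonneg _).trans (hx c0 hc0)
    have h2 : ‖z - x + (1 - ε) • v‖ ≤ 1 - ε := by
      have : ‖z - x + (1 - ε) • v‖ ^ 2 ≤ (1 - ε) ^ 2 := by
        rw [@norm_add_sq_real, norm_smul, h.2.1, inner_smul_right, real_inner_comm, mul_one,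
          Real.norm_eq_abs, sq_abs]
        linarith
      exact (pow_le_pow_iff_left₀ (norm_nonneg _) hr two_ne_zero).1 this
    have h3 : ‖y - p + v‖ ≤ 1 := by
      have e : y - p + v = (y - z) + (z - x + (1 - ε) • v) := by
        rw [hp, sub_smul, one_smul]; abel
      rw [e]
      have := norm_add_le (y - z) (z - x + (1 - ε) • v)
      linarith
    have h4 : ‖y - p + v‖ ^ 2 ≤ 1 := pow_le_one₀ (norm_nonneg _) h3
    rw [@norm_add_sq_real, h.2.1, real_inner_comm] at h4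
    linarith
  · intro p v v' h h'
    obtain ⟨x, hx, hpx⟩ := h.1
    have e1 := normal_shift hε h hx hpx
    have e2 := normal_shift hε h' hx hpx
    have e3 : ε • v = ε • v' := add_left_cancel (e1.symm.trans e2)
    exact smul_right_injective _ hε.ne' e3
  · have hρ : (0 : ℝ) < 1 - √3 / 3 := by
      have : √3 < 3 := by
        rw [Real.sqrt_lt' (by norm_num)]; norm_num
      linarith
    -- it suffices that some ball of radius rho lies in K
    have suff : (∃ O : E2, ∀ u : E2, ‖u‖ = 1 → O + (1 - √3 / 3) • u ∈ KSet C ε) →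
        ∃ O : E2, ∀ p v, IsN (KSet C ε) p v → 1 - √3 / 3 ≤ ⟪v, p - O⟫_ℝ := by
      rintro ⟨O, hO⟩
      refine ⟨O, fun p v h => ?_⟩
      have h1 := h.2.2 _ (hO v h.2.1)
      have hvv : ⟪v, v⟫_ℝ = 1 := by rw [real_inner_self_eq_norm_sq, h.2.1]; norm_num
      have h2 : ⟪v, O + (1 - √3 / 3) • v - p⟫_ℝ = (1 - √3 / 3) - ⟪v, p - O⟫_ℝ := by
        simp only [inner_sub_right, inner_add_right, inner_smul_right, hvv]; ring
      linarith
    apply suff
    by_cases hle : 1 - √3 / 3 ≤ ε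
    · obtain ⟨x, hx⟩ := hA
      refine ⟨x, fun u hu => ⟨x, hx, ?_⟩⟩
      rw [add_sub_cancel_left, norm_smul, hu, mul_one, Real.norm_eq_abs, abs_of_pos hρ]
      exact hle
    · push Not at hle
      obtain ⟨O, hO⟩ := jung C hdiam
      refine ⟨O, fun u hu => ⟨O + (1 - √3 / 3 - ε) • u, ?_, ?_⟩⟩
      · intro c hc
        have e1 := hO c hc
        rw [dist_eq_norm] at e1
        have e2 : O + (1 - √3 / 3 - ε) • u - c = (O - c) + (1 - √3 / 3 - ε) • u := by abel
        rw [e2]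
        have e3 := norm_add_le (O - c) ((1 - √3 / 3 - ε) • u)
        rw [norm_smul (1 - √3 / 3 - ε) u, hu, mul_one, Real.norm_eq_abs,
          abs_of_pos (by linarith)] at e3
        linarith
      · have e1 : O + (1 - √3 / 3) • u - (O + (1 - √3 / 3 - ε) • u) = ε • u := by
          rw [sub_smul _ ε]; abel
        rw [e1, norm_smul, hu, mul_one, Real.norm_eq_abs, abs_of_pos hε]

end

end Pool.Agent.H18Bill
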