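import Pool.Agent.H18Bill.Basic

set_option autoImplicit false
open scoped InnerProductSpace

namespace Pool.Agent.H18Bill

/-- The numeric contradiction. -/
lemma numeric_core (t P F m H : ℝ) (ht : t ^ 2 = 3) (ht0 : 0 < t)
    (hP2 : 2 < P) (hP3 : P ≤ 3) (hm : 0 ≤ m)
    (hF2 : F ^ 2 ≤ 1 + t / 2 * (P * (P - 2)))
    (h1 : (1 - t / 3) * P ≤ H) (h2 : P - m * F ≤ H) (h3 : H ≤ 2 - m) : False := by
  have ht1 : t < 1.74 := by nlinarith
  have ht2 : 1.73 < t := by nlinarith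
  have hm2 : m ≤ 2 - (1 - t / 3) * P := by linarith
  have h4 : P - 2 ≤ m * (F - 1) := by linarith
  have hF1 : 1 < F := by
    by_contra hcon
    push Not at hcon
    have : m * (F - 1) ≤ 0 := mul_nonpos_of_nonneg_of_nonpos hm (by linarith)
    linarith
  have h5 : P - 2 ≤ (2 - (1 - t / 3) * P) * (F - 1) := by
    have : m * (F - 1) ≤ (2 - (1 - t / 3) * P) * (F - 1) :=
      mul_le_mul_of_nonneg_right hm2 (by linarith)
    linarith
  have h6 : t / 3 * P ≤ (2 - (1 - t / 3) * P) * F := by linarith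
  have h7 : (t / 3 * P) ^ 2 ≤ ((2 - (1 - t / 3) * P) * F) ^ 2 := by
    apply pow_le_pow_left₀ _ h6
    positivity
  have h8 : ((2 - (1 - t / 3) * P) * F) ^ 2 ≤
      (2 - (1 - t / 3) * P) ^ 2 * (1 + t / 2 * (P * (P - 2))) := by
    rw [mul_pow]
    exact mul_le_mul_of_nonneg_left hF2 (sq_nonneg _)
  have h9 : 3 * ((2 - (1 - t / 3) * P) ^ 2 * (1 + t / 2 * (P * (P - 2)))) - 3 * (t / 3 * P) ^ 2
      = (P - 2) ^ 2 * ((4 * t - 9) + (6 * t - 12) * (P - 2) + (2 * t - 3) * (P - 2) ^ 2) := by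
    have ht3 : t ^ 3 = 3 * t := by rw [pow_succ, ht]
    ring_nf
    simp only [ht, ht3]
    ring
  have h10 : (4 * t - 9) + (6 * t - 12) * (P - 2) + (2 * t - 3) * (P - 2) ^ 2 < 0 := by
    have k1 : (P - 2) ^ 2 ≤ 1 := pow_le_one₀ (by linarith) (by linarith)
    have k2 : (6 * t - 12) * (P - 2) ≤ 0 :=
      mul_nonpos_of_nonpos_of_nonneg (by linarith) (by linarith)
    have k3 : (2 * t - 3) * (P - 2) ^ 2 ≤ (2 * t - 3) * 1 :=
      mul_le_mul_of_nonneg_left k1 (by linarith)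
    linarith
  have h11 : 0 < (P - 2) ^ 2 := by
    have : 0 < P - 2 := by linarith
    positivity
  have h12 := mul_neg_of_pos_of_neg h11 h10
  linarith

/-- Algebra of acute triangles of circumdiameter one. -/
lemma tri_alg (t a b c X Y Z : ℝ) (ht : t ^ 2 = 3) (ht0 : 0 < t)
    (ha0 : 0 < a) (hb0 : 0 < b) (hc0 : 0 < c) (hX0 : 0 < X) (hY0 : 0 < Y) (hZ0 : 0 < Z)
    (hab : a * b = Z + X * Y) (hca : c * a = Y + Z * X) (hbc : b * c = X + Y * Z)
    (h1 : b * Z + c * Y = a) (h2 : a * Z + c * X = b) (h3 : a * Y + b * X = c)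
    (ha : a ^ 2 = 1 - X ^ 2) (hb : b ^ 2 = 1 - Y ^ 2) (hc : c ^ 2 = 1 - Z ^ 2) :
    2 < a + b + c ∧ a + b + c ≤ 3 ∧
      (a ^ 2 + b ^ 2 + c ^ 2) / 2 + t * (a * b * c) ≤
        1 + t / 2 * ((a + b + c) * ((a + b + c) - 2)) ∧
      a ^ 2 ≤ b ^ 2 + c ^ 2 ∧ b ^ 2 ≤ c ^ 2 + a ^ 2 ∧ c ^ 2 ≤ a ^ 2 + b ^ 2 := by
  have e1 : 2 * (a * b * c) = (a + b + c) * (X + Y + Z - 1) := by
    have e0 : a * (Y * Z) + b * (X * Z) + c * (X * Y) = a * b * c := by
      have : a * (Y * Z) + b * (X * Z) + c * (X * Y) = Z * (a * Y + b * X) + c * (X * Y) := by ring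
      rw [this, h3]
      linear_combination (-c) * hab
    have e00 : a * X + b * Y + c * Z = 2 * (a * b * c) := by
      linear_combination (-a) * hbc - b * hca - c * hab - e0
    linear_combination (-1) * e00 - h1 - h2 - h3
  have e2 : X ^ 2 + Y ^ 2 + Z ^ 2 + 2 * (X * Y * Z) = 1 := by
    have : (a * b) ^ 2 = (1 - X ^ 2) * (1 - Y ^ 2) := by rw [mul_pow, ha, hb]
    rw [hab] at this
    linarith
  have e3 : 4 * (X * Y * Z) = (a + b + c) ^ 2 - (1 + X + Y + Z) ^ 2 := by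
    linear_combination 2 * e2 - ha - hb - hc - 2 * hab - 2 * hca - 2 * hbc
  have hP : 0 < a + b + c := by positivity
  have habc : 0 < a * b * c := by positivity
  have hs1 : 1 < X + Y + Z := by
    by_contra hcon
    push Not at hcon
    have hle : (a + b + c) * (X + Y + Z - 1) ≤ 0 :=
      mul_nonpos_of_nonneg_of_nonpos hP.le (by linarith)
    linarith
  have hXYZ : 0 < X * Y * Z := by positivity
  have hP1 : 1 + X + Y + Z ≤ a + b + c := by
    have hsq : (1 + X + Y + Z) ^ 2 ≤ (a + b + c) ^ 2 := by linarith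
    exact (pow_le_pow_iff_left₀ (by positivity) hP.le two_ne_zero).1 hsq
  refine ⟨by linarith, ?_, ?_, ?_, ?_, ?_⟩
  · have k1 : a ≤ 1 := (sq_le_one_iff₀ ha0.le).1 (by rw [ha]; linarith [sq_nonneg X])
    have k2 : b ≤ 1 := (sq_le_one_iff₀ hb0.le).1 (by rw [hb]; linarith [sq_nonneg Y])
    have k3 : c ≤ 1 := (sq_le_one_iff₀ hc0.le).1 (by rw [hc]; linarith [sq_nonneg Z])
    linarith
  · obtain ⟨P, hPdef⟩ : ∃ P, P = a + b + c := ⟨_, rfl⟩
    obtain ⟨q, hq⟩ : ∃ q, q = (P - 1 - (X + Y + Z)) / 2 := ⟨_, rfl⟩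
    have hq0 : 0 ≤ q := by rw [hq]; linarith
    have hS : X + Y + Z = P - 1 - 2 * q := by rw [hq]; ring
    rw [← hPdef] at e1 e3 ⊢
    have e4 : X * Y * Z = q * (P - q) := by
      have : (1 + X + Y + Z) = P - 2 * q := by linarith
      rw [this] at e3
      linarith
    have e5 : 2 * (a * b * c) = P * (P - 2 - 2 * q) := by
      rw [e1, hS]; ring
    have e6 : (a ^ 2 + b ^ 2 + c ^ 2) / 2 = 1 + X * Y * Z := by
      rw [ha, hb, hc]; linarith
    have e7 : t * (a * b * c) = t / 2 * (P * (P - 2 - 2 * q)) := by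
      linear_combination (t / 2) * e5
    rw [e6, e7, e4]
    have ht2 : 1 < t := by nlinarith
    have hPpos : 0 < P := by rw [hPdef]; positivity
    have k := mul_nonneg (mul_nonneg hq0 hPpos.le) (by linarith : (0:ℝ) ≤ t - 1)
    linarith [sq_nonneg q, k]
  · rw [ha, hb, hc]; linarith [sq_nonneg X]
  · rw [ha, hb, hc]; linarith [sq_nonneg Y]
  · rw [ha, hb, hc]; linarith [sq_nonneg Z]

end Pool.Agent.H18Bill
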