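import Pool.Agent.H18Bill.Path

set_option autoImplicit false
open scoped InnerProductSpace

namespace Pool.Agent.H18Bill

lemma tri_any {p : ℕ → E2} {n : ℕ} (hper : ∀ i, p (i + n) = p i) {a b c : ℕ}
    (ha : a < n) (hb : b < n) (hc : c < n) (hab : a ≠ b) (hbc : b ≠ c) (hca : c ≠ a) :
    dist (p (a + 1)) (p (b + 1)) + dist (p (b + 1)) (p (c + 1)) + dist (p (c + 1)) (p (a + 1)) ≤
      ∑ i ∈ Finset.range n, dist (p i) (p (i + 1)) := by
  rcases lt_or_gt_of_ne hab with h1 | h1 <;> rcases lt_or_gt_of_ne hbc with h2 | h2 <;>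
    rcases lt_or_gt_of_ne hca with h3 | h3
  · omega
  · exact tri_le hper (by omega) (by omega) (by omega)
  · have := tri_le (a := c + 1) (b := a + 1) (c := b + 1) hper (by omega) (by omega) (by omega)
    linarith
  · have := tri_le (a := a + 1) (b := c + 1) (c := b + 1) hper (by omega) (by omega) (by omega)
    rw [dist_comm (p (a + 1)) (p (c + 1)), dist_comm (p (c + 1)) (p (b + 1)),
      dist_comm (p (b + 1)) (p (a + 1))] at this
    linarith
  · have := tri_le (a := b + 1) (b := c + 1) (c := a + 1) hper (by omega) (by omega) (by omega)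
    linarith
  · have := tri_le (a := b + 1) (b := a + 1) (c := c + 1) hper (by omega) (by omega) (by omega)
    rw [dist_comm (p (a + 1)) (p (c + 1)), dist_comm (p (c + 1)) (p (b + 1)),
      dist_comm (p (b + 1)) (p (a + 1))] at this
    linarith
  · have := tri_le (a := c + 1) (b := b + 1) (c := a + 1) hper (by omega) (by omega) (by omega)
    rw [dist_comm (p (a + 1)) (p (c + 1)), dist_comm (p (c + 1)) (p (b + 1)),
      dist_comm (p (b + 1)) (p (a + 1))] at this
    linarith
  · omega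

lemma path_long {K : Set E2} (G : Good K) {m : ℝ} (hm0 : 0 ≤ m)
    (hm : ∀ p v p' v', IsN K p v → IsN K p' v' → ‖(p - v) - (p' - v')‖ ≤ m)
    {p : ℕ → E2} {n : ℕ} (hn : 3 ≤ n) (hper : ∀ i, p (i + n) = p i) (hK : ∀ i, p i ∈ K)
    (hne : ∀ i, p i ≠ p (i + 1))
    (hN : ∀ i, ∃ v, IsN K (p (i + 1)) v ∧
      ‖p (i + 2) - p (i + 1)‖⁻¹ • (p (i + 2) - p (i + 1)) =
            (2 * ⟪v, ‖p i - p (i + 1)‖⁻¹ • (p i - p (i + 1))⟫_ℝ) • v
              - ‖p i - p (i + 1)‖⁻¹ • (p i - p (i + 1))) :
    2 * (2 - m) < ∑ i ∈ Finset.range n, dist (p i) (p (i + 1)) := by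
  choose V hV hrefl using hN
  obtain ⟨e, he⟩ : ∃ e : ℕ → E2, ∀ i, e i = ‖p (i + 1) - p i‖⁻¹ • (p (i + 1) - p i) :=
    ⟨_, fun _ => rfl⟩
  have hlam : ∀ i, 0 < ⟪V i, e i⟫_ℝ := by
    intro i
    have h1 := inner_neg_of_normal G (hV i) (hK i) (hne i)
    have h2 : 0 < ‖p (i + 1) - p i‖ := norm_pos_iff.2 (sub_ne_zero.2 (hne i).symm)
    rw [he, inner_smul_right]
    have h3 : ⟪V i, p (i + 1) - p i⟫_ℝ = -⟪V i, p i - p (i + 1)⟫_ℝ := by
      rw [← inner_neg_right, neg_sub]
    rw [h3]
    exact mul_pos (inv_pos.2 h2) (by linarith)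
  have hdiff : ∀ i, (2 * ⟪V i, e i⟫_ℝ) • V i = e i - e (i + 1) := by
    intro i
    have h1 := hrefl i
    have h2 : ‖p i - p (i + 1)‖⁻¹ • (p i - p (i + 1)) = - e i := by
      rw [he, norm_sub_rev, ← neg_sub (p (i + 1)) (p i), smul_neg]
    rw [h2] at h1
    have h3 : ‖p (i + 2) - p (i + 1)‖⁻¹ • (p (i + 2) - p (i + 1)) = e (i + 1) := by
      rw [he]
    rw [h3, inner_neg_right, mul_neg, neg_smul, sub_neg_eq_add] at h1
    rw [h1]; abel
  have hsum : ∑ i ∈ Finset.range n, (2 * ⟪V i, e i⟫_ℝ) • V i = 0 := by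
    rw [Finset.sum_congr rfl (fun i _ => hdiff i), Finset.sum_range_sub']
    have : e n = e 0 := by
      rw [he, he]
      have h1 := hper 0
      have h2 := hper 1
      rw [zero_add] at h1
      rw [show n + 1 = 1 + n by omega, h1, h2]
    rw [this, sub_self]
  have hmem : (0 : E2) ∈ convexHull ℝ (V '' {i | i < n}) := by
    have hpos : 0 < ∑ i ∈ Finset.range n, (2 * ⟪V i, e i⟫_ℝ) := by
      refine Finset.sum_pos (fun i _ => ?_) ⟨0, by simp; omega⟩
      have := hlam i
      linarith
    have := Finset.centerMass_mem_convexHull (R := ℝ) (s := V '' {i | i < n}) (Finset.range n)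
      (w := fun i => 2 * ⟪V i, e i⟫_ℝ) (fun i _ => by have := hlam i; linarith) hpos
      (z := V) (fun i hi => ⟨i, by simpa using hi, rfl⟩)
    rw [Finset.centerMass, hsum, smul_zero] at this
    exact this
  obtain ⟨ι, hι, z, w, hz, hind, hw, hw1, hwz⟩ := eq_pos_convex_span_of_mem_convexHull hmem
  have hcard : Fintype.card ι ≤ 3 := by
    have h1 := hind.card_le_finrank_succ
    have h2 : Module.finrank ℝ (vectorSpan ℝ (Set.range z)) ≤ Module.finrank ℝ E2 :=
      Submodule.finrank_le _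
    have h3 : Module.finrank ℝ E2 = 2 := by simp
    omega
  have hj : ∀ i, ∃ j, j < n ∧ V j = z i := by
    intro i
    have : z i ∈ V '' {i | i < n} := hz ⟨i, rfl⟩
    obtain ⟨j, hj1, hj2⟩ := this
    exact ⟨j, hj1, hj2⟩
  choose j hjn hjz using hj
  have hinj := hind.injective
  have hjinj : Function.Injective j := by
    intro a b hab
    apply hinj
    rw [← hjz, ← hjz, hab]
  have hNz : ∀ i, IsN K (p (j i + 1)) (z i) := by
    intro i
    rw [← hjz]
    exact hV _
  have hN' : ∀ i, ∃ v, IsN K (p (i + 1)) v := fun i => ⟨V i, hV i⟩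
  interval_cases hc : Fintype.card ι
  · -- empty
    have : IsEmpty ι := Fintype.card_eq_zero_iff.1 hc
    simp at hw1
  · -- one
    obtain ⟨i0, hi0⟩ := Fintype.card_eq_one_iff.1 hc
    have hu : (Finset.univ : Finset ι) = {i0} := by
      ext i; simp [hi0 i]
    rw [hu, Finset.sum_singleton] at hw1 hwz
    rw [hw1, one_smul] at hwz
    have := (hNz i0).2.1
    rw [hwz, norm_zero] at this
    norm_num at this
  · -- two
    have E : ι ≃ Fin 2 := Fintype.equivFinOfCardEq hc
    have hs1 : w (E.symm 0) + w (E.symm 1) = 1 := by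
      rw [← hw1, ← E.symm.sum_comp, Fin.sum_univ_two]
    have hs2 : w (E.symm 0) • z (E.symm 0) + w (E.symm 1) • z (E.symm 1) = 0 := by
      rw [← hwz, ← E.symm.sum_comp, Fin.sum_univ_two]
    have hne01 : E.symm 0 ≠ E.symm 1 := fun h => by simpa using E.symm.injective h
    generalize E.symm 0 = i0 at *
    generalize E.symm 1 = i1 at *
    have n0 := (hNz i0).2.1
    have n1 := (hNz i1).2.1
    have q1 : w i0 • z i0 = -(w i1 • z i1) := eq_neg_iff_add_eq_zero.2 hs2
    have q2 : w i0 = w i1 := by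
      have := congrArg norm q1
      rw [norm_neg, norm_smul, norm_smul, n0, n1, mul_one, mul_one, Real.norm_eq_abs,
        Real.norm_eq_abs, abs_of_pos (hw _), abs_of_pos (hw _)] at this
      exact this
    have q3 : z i0 = - z i1 := by
      rw [q2, ← smul_neg] at q1
      exact smul_right_injective _ (hw i1).ne' q1
    have hjne : j i0 ≠ j i1 := fun h => hne01 (hjinj h)
    have hj0 := hjn i0
    have hj1 := hjn i1
    rcases lt_or_gt_of_ne hjne with h | h
    · refine two_le G hm hn hper hK hne hN' (a := j i0 + 1) (b := j i1 + 1) (by omega) (by omega)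
        (v := z i0) (hNz i0) ?_
      rw [q3, neg_neg]; exact hNz i1
    · refine two_le G hm hn hper hK hne hN' (a := j i1 + 1) (b := j i0 + 1) (by omega) (by omega)
        (v := z i1) (hNz i1) ?_
      rw [← q3]; exact hNz i0
  · -- three
    have E : ι ≃ Fin 3 := Fintype.equivFinOfCardEq hc
    have hs2 : w (E.symm 0) • z (E.symm 0) + w (E.symm 1) • z (E.symm 1)
        + w (E.symm 2) • z (E.symm 2) = 0 := by
      rw [← hwz, ← E.symm.sum_comp, Fin.sum_univ_three]
    have hne01 : E.symm 0 ≠ E.symm 1 := fun h => by simpa using E.symm.injective h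
    have hne12 : E.symm 1 ≠ E.symm 2 := fun h => by simpa using E.symm.injective h
    have hne20 : E.symm 2 ≠ E.symm 0 := fun h => by simpa using E.symm.injective h
    generalize E.symm 0 = i0 at *
    generalize E.symm 1 = i1 at *
    generalize E.symm 2 = i2 at *
    have h1 := three_normals G hm0 hm (hNz i0) (hNz i1) (hNz i2) (hw i0) (hw i1) (hw i2) hs2
      (fun h => hne01 (hinj h)) (fun h => hne12 (hinj h)) (fun h => hne20 (hinj h))
    have h2 := tri_any hper (hjn i0) (hjn i1) (hjn i2) (fun h => hne01 (hjinj h))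
      (fun h => hne12 (hjinj h)) (fun h => hne20 (hjinj h))
    linarith

end Pool.Agent.H18Bill
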