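import Pool.Agent.H18Bill.Acute

set_option autoImplicit false
open scoped InnerProductSpace

namespace Pool.Agent.H18Bill

lemma exists_support {K : Set E2} (G : Good K) {v : E2} (hv : ‖v‖ = 1) : ∃ p, IsN K p v := by
  obtain ⟨p, hp, hmax⟩ := G.compact.exists_isMaxOn G.ne
    (f := fun x => ⟪v, x⟫_ℝ) (by fun_prop)
  refine ⟨p, hp, hv, fun x hx => ?_⟩
  have : ⟪v, x⟫_ℝ ≤ ⟪v, p⟫_ℝ := hmax hx
  rw [inner_sub_right]; linarith

lemma inner_le_of_norm {u w : E2} {r : ℝ} (hu : ‖u‖ = 1) (hw : ‖w‖ ≤ r) : ⟪u, w⟫_ℝ ≤ r := by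
  have := real_inner_le_norm u w
  rw [hu, one_mul] at this
  linarith

/-- width estimate -/
lemma width_ge {K : Set E2} {m : ℝ}
    (hm : ∀ p v p' v', IsN K p v → IsN K p' v' → ‖(p - v) - (p' - v')‖ ≤ m)
    {p q v : E2} (h1 : IsN K p v) (h2 : IsN K q (-v)) : 2 - m ≤ ⟪v, p - q⟫_ℝ := by
  have h := hm _ _ _ _ h2 h1
  have e : ⟪v, (q - -v) - (p - v)⟫_ℝ ≤ m := inner_le_of_norm h1.2.1 h
  have e2 : (q - -v) - (p - v) = (2 : ℝ) • v - (p - q) := by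
    rw [two_smul]; abel
  rw [e2, inner_sub_right, inner_smul_right, real_inner_self_eq_norm_sq, h1.2.1] at e
  linarith

lemma obtuse_case {K : Set E2} (G : Good K) {m : ℝ}
    (hm : ∀ p v p' v', IsN K p v → IsN K p' v' → ‖(p - v) - (p' - v')‖ ≤ m)
    {p1 p2 p3 v1 v2 v3 : E2} (h1 : IsN K p1 v1) (h2 : IsN K p2 v2) (h3 : IsN K p3 v3)
    {a b : ℝ} (ha : 0 < a) (hb : 0 < b) (hab : a • v1 + b • v2 + v3 = 0)
    (hne : v1 ≠ v2) (hi : 0 ≤ ⟪v1, v2⟫_ℝ) :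
    2 * (2 - m) < dist p1 p2 + dist p2 p3 + dist p3 p1 := by
  have hv3 : v3 = -(a • v1 + b • v2) := by
    rw [eq_neg_iff_add_eq_zero, add_comm]; exact hab
  have hnv3 : ‖-v3‖ = 1 := by rw [norm_neg]; exact h3.2.1
  obtain ⟨x, hx⟩ := exists_support G hnv3
  -- the third direction
  have hU : ‖b • v2 - a • v1‖ ≤ 1 := by
    have e1 : ‖v3‖ ^ 2 = a ^ 2 + b ^ 2 + 2 * (a * b) * ⟪v1, v2⟫_ℝ := by
      rw [hv3, norm_neg, @norm_add_sq_real, norm_smul, norm_smul, h1.2.1, h2.2.1,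
        inner_smul_left, inner_smul_right]
      simp only [Real.norm_eq_abs, mul_one, sq_abs, conj_trivial]
      ring
    have e2 : ‖b • v2 - a • v1‖ ^ 2 = a ^ 2 + b ^ 2 - 2 * (a * b) * ⟪v1, v2⟫_ℝ := by
      rw [@norm_sub_sq_real, norm_smul, norm_smul, h1.2.1, h2.2.1,
        inner_smul_left, inner_smul_right, real_inner_comm]
      simp only [Real.norm_eq_abs, mul_one, sq_abs, conj_trivial]
      ring
    rw [h3.2.1] at e1
    have e3 : 0 ≤ (a * b) * ⟪v1, v2⟫_ℝ := mul_nonneg (mul_nonneg ha.le hb.le) hi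
    have e4 : ‖b • v2 - a • v1‖ ^ 2 ≤ 1 := by rw [e2]; linarith
    exact (sq_le_one_iff₀ (norm_nonneg _)).1 e4
  -- perimeter
  have w1 : ⟪v3, p3 - p1⟫_ℝ ≤ dist p3 p1 := by
    rw [dist_eq_norm]; exact inner_le_of_norm h3.2.1 le_rfl
  have w2 : ⟪v3, p3 - p2⟫_ℝ ≤ dist p2 p3 := by
    rw [dist_comm, dist_eq_norm]; exact inner_le_of_norm h3.2.1 le_rfl
  have w3 : ⟪b • v2 - a • v1, p2 - p1⟫_ℝ ≤ dist p1 p2 := by
    rw [dist_comm, dist_eq_norm]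
    have := real_inner_le_norm (b • v2 - a • v1) (p2 - p1)
    have h' : ‖b • v2 - a • v1‖ * ‖p2 - p1‖ ≤ 1 * ‖p2 - p1‖ :=
      mul_le_mul_of_nonneg_right hU (norm_nonneg _)
    linarith
  -- strong convexity at p1 and p2
  have s1 := G.ball _ _ h1 x hx.1
  have s2 := G.ball _ _ h2 x hx.1
  have wd := width_ge hm h3 hx
  have key : ⟪v3, p3 - p1⟫_ℝ + ⟪v3, p3 - p2⟫_ℝ + ⟪b • v2 - a • v1, p2 - p1⟫_ℝ
      = 2 * ⟪v3, p3 - x⟫_ℝ - 2 * a * ⟪v1, x - p1⟫_ℝ - 2 * b * ⟪v2, x - p2⟫_ℝ := by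
    rw [hv3]
    simp only [inner_sub_left, inner_sub_right, inner_neg_left, inner_add_left, inner_smul_left,
      conj_trivial]
    ring
  by_contra hcon
  push Not at hcon
  have t1 : a * ‖x - p1‖ ^ 2 ≤ a * (-2 * ⟪v1, x - p1⟫_ℝ) := mul_le_mul_of_nonneg_left s1 ha.le
  have t2 : b * ‖x - p2‖ ^ 2 ≤ b * (-2 * ⟪v2, x - p2⟫_ℝ) := mul_le_mul_of_nonneg_left s2 hb.le
  have t3 : a * ‖x - p1‖ ^ 2 + b * ‖x - p2‖ ^ 2 ≤ 0 := by linarith
  have t4 : 0 ≤ a * ‖x - p1‖ ^ 2 := by positivity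
  have t5 : 0 ≤ b * ‖x - p2‖ ^ 2 := by positivity
  have t6 : a * ‖x - p1‖ ^ 2 = 0 := by linarith
  have t7 : b * ‖x - p2‖ ^ 2 = 0 := by linarith
  have t8 : x = p1 := by
    rcases mul_eq_zero.1 t6 with h | h
    · exact absurd h ha.ne'
    · exact sub_eq_zero.1 (norm_eq_zero.1 (pow_eq_zero_iff two_ne_zero |>.1 h))
  have t9 : x = p2 := by
    rcases mul_eq_zero.1 t7 with h | h
    · exact absurd h hb.ne'
    · exact sub_eq_zero.1 (norm_eq_zero.1 (pow_eq_zero_iff two_ne_zero |>.1 h))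
  apply hne
  refine G.uniq x v1 v2 ?_ ?_
  · rw [t8]; exact h1
  · rw [t9]; exact h2

end Pool.Agent.H18Bill
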