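import Pool.Agent.H18Bill.Three

set_option autoImplicit false
open scoped InnerProductSpace

namespace Pool.Agent.H18Bill

lemma inner_neg_of_normal {K : Set E2} (G : Good K) {x v y : E2} (h : IsN K x v) (hy : y ∈ K)
    (hne : y ≠ x) : ⟪v, y - x⟫_ℝ < 0 := by
  have h1 := G.ball _ _ h y hy
  have h2 : 0 < ‖y - x‖ ^ 2 := by
    have : 0 < ‖y - x‖ := norm_pos_iff.2 (sub_ne_zero.2 hne)
    positivity
  linarith

lemma not_wbtw {K : Set E2} (G : Good K) {x v y z : E2} (h : IsN K x v) (hy : y ∈ K) (hz : z ∈ K)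
    (hyx : y ≠ x) (hzx : z ≠ x) : ¬ Wbtw ℝ y x z := by
  rintro ⟨t, ⟨ht0, ht1⟩, hx⟩
  have e1 := inner_neg_of_normal G h hy hyx
  have e2 := inner_neg_of_normal G h hz hzx
  have e3 : (1 - t) • (y - x) + t • (z - x) = 0 := by
    rw [← hx, AffineMap.lineMap_apply_module]
    module
  have e4 : (1 - t) * ⟪v, y - x⟫_ℝ + t * ⟪v, z - x⟫_ℝ = 0 := by
    rw [← inner_smul_right, ← inner_smul_right, ← inner_add_right, e3, inner_zero_right]
  rcases ht0.eq_or_lt with h0 | h0
  · rw [← h0] at e4; linarith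
  · have := mul_neg_of_pos_of_neg h0 e2
    have := mul_nonpos_of_nonneg_of_nonpos (sub_nonneg.2 ht1) e1.le
    linarith

lemma strict_piece {K : Set E2} (G : Good K) {p : ℕ → E2} (hK : ∀ i, p i ∈ K)
    (hne : ∀ i, p i ≠ p (i + 1)) (hN : ∀ i, ∃ v, IsN K (p (i + 1)) v) {a b : ℕ} (hab : a + 2 ≤ b) :
    dist (p a) (p b) < ∑ i ∈ Finset.Ico a b, dist (p i) (p (i + 1)) := by
  rw [Finset.sum_eq_sum_Ico_succ_bot (by omega : a < b)]
  have h1 := dist_le_Ico_sum_dist p (by omega : a + 1 ≤ b)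
  by_cases hx : p (a + 1) = p b
  · rw [← hx]
    have h2 : 0 < ∑ i ∈ Finset.Ico (a + 1) b, dist (p i) (p (i + 1)) := by
      rw [Finset.sum_eq_sum_Ico_succ_bot (by omega : a + 1 < b)]
      have h3 : 0 < dist (p (a + 1)) (p (a + 1 + 1)) := dist_pos.2 (hne _)
      have h4 : 0 ≤ ∑ i ∈ Finset.Ico (a + 1 + 1) b, dist (p i) (p (i + 1)) :=
        Finset.sum_nonneg fun _ _ => dist_nonneg
      linarith
    linarith
  · obtain ⟨v, hv⟩ := hN a
    have h2 : dist (p a) (p b) ≠ dist (p a) (p (a + 1)) + dist (p (a + 1)) (p b) := by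
      intro h
      have := dist_add_dist_eq_iff.1 h.symm
      exact not_wbtw G hv (hK a) (hK b) (hne a) (Ne.symm hx) this
    have h3 := dist_triangle (p a) (p (a + 1)) (p b)
    have h4 := lt_of_le_of_ne h3 h2
    linarith

lemma sum_periodic {f : ℕ → ℝ} {n : ℕ} (hf : ∀ i, f (i + n) = f i) (a : ℕ) :
    ∑ i ∈ Finset.Ico a (a + n), f i = ∑ i ∈ Finset.range n, f i := by
  induction a with
  | zero => rw [zero_add, Finset.range_eq_Ico]
  | succ a ih =>
    rw [← ih]
    rcases Nat.eq_zero_or_pos n with rfl | hn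
    · simp
    · rw [Finset.sum_eq_sum_Ico_succ_bot (by omega : a < a + n)]
      rw [show a + 1 + n = (a + n) + 1 by omega, Finset.sum_Ico_succ_top (by omega), hf]
      ring

lemma two_le {K : Set E2} (G : Good K) {m : ℝ}
    (hm : ∀ p v p' v', IsN K p v → IsN K p' v' → ‖(p - v) - (p' - v')‖ ≤ m)
    {p : ℕ → E2} {n : ℕ} (hn : 3 ≤ n) (hper : ∀ i, p (i + n) = p i) (hK : ∀ i, p i ∈ K)
    (hne : ∀ i, p i ≠ p (i + 1)) (hN : ∀ i, ∃ v, IsN K (p (i + 1)) v) {a b : ℕ} (hab : a < b)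
    (hba : b < a + n) {v : E2} (ha : IsN K (p a) v) (hb : IsN K (p b) (-v)) :
    2 * (2 - m) < ∑ i ∈ Finset.range n, dist (p i) (p (i + 1)) := by
  have hperd : ∀ i, dist (p (i + n)) (p (i + n + 1)) = dist (p i) (p (i + 1)) := by
    intro i
    rw [hper, show i + n + 1 = (i + 1) + n by omega, hper]
  rw [← sum_periodic (f := fun i => dist (p i) (p (i + 1))) hperd a,
    ← Finset.sum_Ico_consecutive _ hab.le hba.le]
  have h0 : 2 - m ≤ dist (p a) (p b) := by
    have := width_ge hm ha hb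
    rw [dist_eq_norm]
    exact this.trans (inner_le_of_norm ha.2.1 le_rfl)
  have h1 := dist_le_Ico_sum_dist p hab.le
  have h2 := dist_le_Ico_sum_dist p hba.le
  rw [hper a, dist_comm] at h2
  by_cases hc : a + 2 ≤ b
  · have := strict_piece G hK hne hN hc
    linarith
  · have hc2 : b + 2 ≤ a + n := by omega
    have := strict_piece G hK hne hN hc2
    rw [hper a, dist_comm] at this
    linarith

lemma tri_le {p : ℕ → E2} {n : ℕ} (hper : ∀ i, p (i + n) = p i) {a b c : ℕ} (hab : a < b)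
    (hbc : b < c) (hca : c < a + n) :
    dist (p a) (p b) + dist (p b) (p c) + dist (p c) (p a) ≤
      ∑ i ∈ Finset.range n, dist (p i) (p (i + 1)) := by
  have hperd : ∀ i, dist (p (i + n)) (p (i + n + 1)) = dist (p i) (p (i + 1)) := by
    intro i
    rw [hper, show i + n + 1 = (i + 1) + n by omega, hper]
  rw [← sum_periodic (f := fun i => dist (p i) (p (i + 1))) hperd a,
    ← Finset.sum_Ico_consecutive _ (hab.trans hbc).le hca.le,
    ← Finset.sum_Ico_consecutive _ hab.le hbc.le]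
  have h1 := dist_le_Ico_sum_dist p hab.le
  have h2 := dist_le_Ico_sum_dist p hbc.le
  have h3 := dist_le_Ico_sum_dist p hca.le
  rw [hper a] at h3
  linarith

end Pool.Agent.H18Bill
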