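import Pool.Agent.H18Bill.Obtuse

set_option autoImplicit false
open scoped InnerProductSpace

namespace Pool.Agent.H18Bill

lemma inner_sq_add_det_sq {u v : E2} (hu : ‖u‖ = 1) (hv : ‖v‖ = 1) :
    ⟪u, v⟫_ℝ ^ 2 + det u v ^ 2 = 1 := by
  rw [inner_coord]; simp only [det]
  have k1 := coord_of_norm_one hu
  have k2 := coord_of_norm_one hv
  linear_combination (v 0 ^ 2 + v 1 ^ 2) * k1 + k2

lemma three_normals {K : Set E2} (G : Good K) {m : ℝ} (hm0 : 0 ≤ m)
    (hm : ∀ p v p' v', IsN K p v → IsN K p' v' → ‖(p - v) - (p' - v')‖ ≤ m)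
    {p1 p2 p3 v1 v2 v3 : E2} (h1 : IsN K p1 v1) (h2 : IsN K p2 v2) (h3 : IsN K p3 v3)
    {w1 w2 w3 : ℝ} (hw1 : 0 < w1) (hw2 : 0 < w2) (hw3 : 0 < w3)
    (hsum : w1 • v1 + w2 • v2 + w3 • v3 = 0)
    (h12 : v1 ≠ v2) (h23 : v2 ≠ v3) (h31 : v3 ≠ v1) :
    2 * (2 - m) < dist p1 p2 + dist p2 p3 + dist p3 p1 := by
  by_cases i12 : 0 ≤ ⟪v1, v2⟫_ℝ
  · refine obtuse_case G hm h1 h2 h3 (a := w1 / w3) (b := w2 / w3) (div_pos hw1 hw3)
      (div_pos hw2 hw3) ?_ h12 i12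
    have : (w3⁻¹ : ℝ) • (w1 • v1 + w2 • v2 + w3 • v3) = 0 := by rw [hsum, smul_zero]
    rw [smul_add, smul_add, smul_smul, smul_smul, smul_smul, inv_mul_cancel₀ hw3.ne',
      one_smul] at this
    rw [div_eq_inv_mul, div_eq_inv_mul]
    exact this
  by_cases i23 : 0 ≤ ⟪v2, v3⟫_ℝ
  · have := obtuse_case G hm h2 h3 h1 (a := w2 / w1) (b := w3 / w1) (div_pos hw2 hw1)
      (div_pos hw3 hw1) ?_ h23 i23
    · linarith
    have : (w1⁻¹ : ℝ) • (w1 • v1 + w2 • v2 + w3 • v3) = 0 := by rw [hsum, smul_zero]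
    rw [smul_add, smul_add, smul_smul, smul_smul, smul_smul, inv_mul_cancel₀ hw1.ne',
      one_smul] at this
    rw [div_eq_inv_mul, div_eq_inv_mul, ← this]
    abel
  by_cases i31 : 0 ≤ ⟪v3, v1⟫_ℝ
  · have := obtuse_case G hm h3 h1 h2 (a := w3 / w2) (b := w1 / w2) (div_pos hw3 hw2)
      (div_pos hw1 hw2) ?_ h31 i31
    · linarith
    have : (w2⁻¹ : ℝ) • (w1 • v1 + w2 • v2 + w3 • v3) = 0 := by rw [hsum, smul_zero]
    rw [smul_add, smul_add, smul_smul, smul_smul, smul_smul, inv_mul_cancel₀ hw2.ne',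
      one_smul] at this
    rw [div_eq_inv_mul, div_eq_inv_mul, ← this]
    abel
  push Not at i12 i23 i31
  have c0 : w1 * v1 0 + w2 * v2 0 + w3 * v3 0 = 0 := by
    have := congrArg (fun z : E2 => z 0) hsum
    simpa [smul_eq_mul] using this
  have c1 : w1 * v1 1 + w2 * v2 1 + w3 * v3 1 = 0 := by
    have := congrArg (fun z : E2 => z 1) hsum
    simpa [smul_eq_mul] using this
  have r1 : w2 * det v1 v2 = w3 * det v3 v1 := by
    simp only [det]
    linear_combination v1 0 * c1 - v1 1 * c0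
  have r2 : w3 * det v2 v3 = w1 * det v1 v2 := by
    simp only [det]
    linear_combination v2 0 * c1 - v2 1 * c0
  rcases lt_trichotomy (det v1 v2) 0 with hd | hd | hd
  · have e1 : det v3 v1 < 0 := by
      by_contra hcon
      push Not at hcon
      have := mul_nonneg hw3.le hcon
      have := mul_neg_of_pos_of_neg hw2 hd
      linarith
    have e2 : det v2 v3 < 0 := by
      by_contra hcon
      push Not at hcon
      have := mul_nonneg hw3.le hcon
      have := mul_neg_of_pos_of_neg hw1 hd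
      linarith
    have s1 : det v2 v1 = -det v1 v2 := by simp only [det]; ring
    have s2 : det v1 v3 = -det v3 v1 := by simp only [det]; ring
    have s3 : det v3 v2 = -det v2 v3 := by simp only [det]; ring
    have := acute_case G hm0 hm h2 h1 h3 (by linarith) (by linarith) (by linarith)
      (by rw [real_inner_comm]; exact i12) (by rw [real_inner_comm]; exact i31)
      (by rw [real_inner_comm]; exact i23)
    rw [dist_comm p2 p1, dist_comm p1 p3, dist_comm p3 p2] at this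
    linarith
  · exfalso
    have e1 := inner_sq_add_det_sq h1.2.1 h2.2.1
    rw [hd] at e1
    have e2 : ⟪v1, v2⟫_ℝ = -1 := by nlinarith
    have e3 : ‖v1 + v2‖ ^ 2 = 0 := by
      rw [@norm_add_sq_real, h1.2.1, h2.2.1, e2]; norm_num
    have e4 : v1 + v2 = 0 := norm_eq_zero.1 (pow_eq_zero_iff two_ne_zero |>.1 e3)
    have e5 : v2 = -v1 := by rw [eq_neg_iff_add_eq_zero, add_comm]; exact e4
    rw [e5, inner_neg_left, real_inner_comm] at i23
    linarith
  · have e1 : 0 < det v3 v1 := by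
      by_contra hcon
      push Not at hcon
      have := mul_nonpos_of_nonneg_of_nonpos hw3.le hcon
      have := mul_pos hw2 hd
      linarith
    have e2 : 0 < det v2 v3 := by
      by_contra hcon
      push Not at hcon
      have := mul_nonpos_of_nonneg_of_nonpos hw3.le hcon
      have := mul_pos hw1 hd
      linarith
    exact acute_case G hm0 hm h1 h2 h3 hd e2 e1 i12 i23 i31

lemma isCompact_normals {K : Set E2} (G : Good K) :
    IsCompact {z : E2 × E2 | IsN K z.1 z.2} := by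
  have hc : IsCompact (K ×ˢ Metric.sphere (0 : E2) 1) := G.compact.prod (isCompact_sphere _ _)
  refine hc.of_isClosed_subset ?_ ?_
  · have : {z : E2 × E2 | IsN K z.1 z.2} =
        (Prod.fst ⁻¹' K) ∩ ({z : E2 × E2 | ‖z.2‖ = 1} ∩
          ⋂ x ∈ K, {z : E2 × E2 | ⟪z.2, x - z.1⟫_ℝ ≤ 0}) := by
      ext z
      simp [IsN]
    rw [this]
    refine (G.compact.isClosed.preimage continuous_fst).inter (IsClosed.inter ?_ ?_)
    · exact isClosed_eq (by fun_prop) continuous_const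
    · refine isClosed_biInter fun x _ => ?_
      exact isClosed_le (by fun_prop) continuous_const
  · rintro ⟨p, v⟩ h
    exact ⟨h.1, by simpa using h.2.1⟩

lemma double_normal {K : Set E2} (G : Good K) :
    ∃ (x y u : E2) (m : ℝ), IsN K x u ∧ IsN K y (-u) ∧ x - y = (2 - m) • u ∧ 0 ≤ m ∧ m < 2 ∧
      ∀ p v p' v', IsN K p v → IsN K p' v' → ‖(p - v) - (p' - v')‖ ≤ m := by
  have hc := isCompact_normals G
  have hcc := hc.prod hc
  obtain ⟨e, he⟩ : ∃ e : E2, ‖e‖ = 1 := ⟨mk 1 0, by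
    have : ‖mk 1 0‖ ^ 2 = 1 ^ 2 := by rw [normsq_coord]; simp
    exact (pow_left_inj₀ (norm_nonneg _) zero_le_one two_ne_zero).1 this⟩
  obtain ⟨p0, hp0⟩ := exists_support G he
  obtain ⟨z, hz, hmax⟩ := hcc.exists_isMaxOn ⟨((p0, e), (p0, e)), hp0, hp0⟩
    (f := fun z : (E2 × E2) × (E2 × E2) => ‖(z.1.1 - z.1.2) - (z.2.1 - z.2.2)‖)
    (by fun_prop)
  obtain ⟨⟨p1, v1⟩, ⟨p2, v2⟩⟩ := z
  have h1 : IsN K p1 v1 := hz.1
  have h2 : IsN K p2 v2 := hz.2
  obtain ⟨m, hmdef⟩ : ∃ m, m = ‖(p1 - v1) - (p2 - v2)‖ := ⟨_, rfl⟩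
  have hm : ∀ p v p' v', IsN K p v → IsN K p' v' → ‖(p - v) - (p' - v')‖ ≤ m := by
    intro p v p' v' h h'
    have : ((p, v), (p', v')) ∈ {z : E2 × E2 | IsN K z.1 z.2} ×ˢ {z : E2 × E2 | IsN K z.1 z.2} :=
      ⟨h, h'⟩
    have := hmax this
    rw [hmdef]
    exact this
  have hm0 : 0 ≤ m := by rw [hmdef]; exact norm_nonneg _
  obtain ⟨u, hu, hcu⟩ : ∃ u : E2, ‖u‖ = 1 ∧ (p1 - v1) - (p2 - v2) = m • u := by
    rcases hm0.eq_or_lt with h0 | h0
    · refine ⟨e, he, ?_⟩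
      rw [← h0, zero_smul]
      exact norm_eq_zero.1 (by rw [← hmdef, ← h0])
    · refine ⟨m⁻¹ • ((p1 - v1) - (p2 - v2)), ?_, ?_⟩
      · rw [norm_smul, ← hmdef, norm_inv, Real.norm_eq_abs, abs_of_pos h0,
          inv_mul_cancel₀ h0.ne']
      · rw [smul_smul, mul_inv_cancel₀ h0.ne', one_smul]
  obtain ⟨x, hx⟩ := exists_support G hu
  have hnu : ‖-u‖ = 1 := by rw [norm_neg]; exact hu
  obtain ⟨y, hy⟩ := exists_support G hnu
  -- x in unit ball around p2 - v2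
  have b1 : ‖x - (p2 - v2)‖ ≤ 1 := by
    have := G.ball _ _ h2 x hx.1
    have e1 : x - (p2 - v2) = (x - p2) + v2 := by abel
    have e2 : ‖x - (p2 - v2)‖ ^ 2 ≤ 1 := by
      rw [e1, @norm_add_sq_real, h2.2.1, real_inner_comm]; linarith
    exact (sq_le_one_iff₀ (norm_nonneg _)).1 e2
  have b2 : ‖y - (p1 - v1)‖ ≤ 1 := by
    have := G.ball _ _ h1 y hy.1
    have e1 : y - (p1 - v1) = (y - p1) + v1 := by abel
    have e2 : ‖y - (p1 - v1)‖ ^ 2 ≤ 1 := by
      rw [e1, @norm_add_sq_real, h1.2.1, real_inner_comm]; linarith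
    exact (sq_le_one_iff₀ (norm_nonneg _)).1 e2
  have b3 := inner_le_of_norm hu b1
  have b4 := inner_le_of_norm hnu b2
  -- the two new centers
  have b5 := hm _ _ _ _ hy hx
  obtain ⟨w, hw⟩ : ∃ w, w = (y - -u) - (x - u) := ⟨_, rfl⟩
  rw [← hw] at b5
  have e3 : ⟪u, (p1 - v1) - (p2 - v2)⟫_ℝ = m := by
    rw [hcu, inner_smul_right, real_inner_self_eq_norm_sq, hu]; ring
  have b6 : m ≤ ⟪u, w⟫_ℝ := by
    have e4 : ⟪u, w⟫_ℝ = 2 - ⟪u, x - (p2 - v2)⟫_ℝ - ⟪-u, y - (p1 - v1)⟫_ℝ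
        + ⟪u, (p1 - v1) - (p2 - v2)⟫_ℝ := by
      have : ⟪u, u⟫_ℝ = 1 := by rw [real_inner_self_eq_norm_sq, hu]; norm_num
      rw [hw]
      simp only [inner_sub_right, inner_neg_left, inner_neg_right]
      linear_combination 2 * this
    rw [e4, e3]; linarith
  have b7 : ‖w - m • u‖ ^ 2 ≤ 0 := by
    rw [@norm_sub_sq_real, norm_smul, hu, inner_smul_right, real_inner_comm, mul_one,
      Real.norm_eq_abs, sq_abs]
    have : ‖w‖ ^ 2 ≤ m ^ 2 := pow_le_pow_left₀ (norm_nonneg _) b5 2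
    have : m * m ≤ m * ⟪u, w⟫_ℝ := mul_le_mul_of_nonneg_left b6 hm0
    nlinarith
  have b8 : w = m • u := by
    have : ‖w - m • u‖ ^ 2 = 0 := le_antisymm b7 (sq_nonneg _)
    exact sub_eq_zero.1 (norm_eq_zero.1 (pow_eq_zero_iff two_ne_zero |>.1 this))
  have b9 : x - y = (2 - m) • u := by
    rw [sub_smul, ← b8, hw, two_smul]; abel
  refine ⟨x, y, u, m, hx, hy, b9, hm0, ?_, hm⟩
  obtain ⟨O, hO⟩ := G.inrad
  have o1 := hO _ _ hx
  have o2 := hO _ _ hy
  have o3 : ⟪u, x - y⟫_ℝ = 2 - m := by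
    rw [b9, inner_smul_right, real_inner_self_eq_norm_sq, hu]; ring
  have o4 : ⟪u, x - O⟫_ℝ + ⟪-u, y - O⟫_ℝ = ⟪u, x - y⟫_ℝ := by
    simp only [inner_sub_right, inner_neg_left]; ring
  have o5 : √3 < 3 := by
    rw [Real.sqrt_lt' (by norm_num)]; norm_num
  linarith

end Pool.Agent.H18Bill
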